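import Mathlib

/-!
Definitions for the minimal diameter of graphs with all r-balls prescribed.
-/

namespace Pool.Agent.Lib.MP_fed0c4_co

/-- The vertex set of the closed `r`-ball of `H` around `v`. -/
def ballSet {V : Type} (H : SimpleGraph V) (v : V) (r : ℕ) : Set V :=
  {u | H.edist v u ≤ (r : ℕ∞)}

/-- The `r`-ball of `H` around `v` (the induced subgraph on the vertices at distance at most `r`
from `v`, rooted at `v`) is isomorphic, as a rooted graph, to the graph `B` rooted at `o`. -/
def BallIso {V W : Type} (H : SimpleGraph V) (v : V) (r : ℕ) (B : SimpleGraph W) (o : W) : Prop :=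
  ∃ (φ : H.induce (ballSet H v r) ≃g B) (h : v ∈ ballSet H v r), φ ⟨v, h⟩ = o

/-- `H` is connected and all its `r`-balls are isomorphic to the rooted graph `(B, o)`. -/
def AllBalls {V W : Type} (H : SimpleGraph V) (r : ℕ) (B : SimpleGraph W) (o : W) : Prop :=
  H.Connected ∧ ∀ v : V, BallIso H v r B o

/-- The pair `((B, o), r)` is realizable: some finite connected graph has all its `r`-balls
isomorphic to `(B, o)`. -/
def Realizable {W : Type} (B : SimpleGraph W) (o : W) (r : ℕ) : Prop :=
  ∃ (V : Type) (_ : Finite V) (H : SimpleGraph V), AllBalls H r B o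

/-- `D(B, r)`: the least diameter of a connected graph all of whose `r`-balls are isomorphic
to `(B, o)`. -/
noncomputable def minDiam {W : Type} (B : SimpleGraph W) (o : W) (r : ℕ) : ℕ∞ :=
  ⨅ (V : Type) (H : SimpleGraph V) (_ : AllBalls H r B o), H.ediam

/-- `M_d(r)`: the largest `D(B, r)` over all realizable finite rooted graphs whose root has
degree `d`. -/
noncomputable def maxMinDiam (d r : ℕ) : ℕ∞ :=
  ⨆ (N : ℕ) (B : SimpleGraph (Fin N)) (o : Fin N) (_ : Realizable B o r)
    (_ : (B.neighborSet o).ncard = d), minDiam B o r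

end Pool.Agent.Lib.MP_fed0c4_co
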