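import Pool.Agent.Lib.MP_fed0c4_co.Lamps

/-!
A fixed system of 22 involutive generators in which four special generators are recognised by
their numbers of triangles.
-/

namespace Pool.Agent.Lib.MP_fed0c4_co

/-- Type of a generator. -/
def ty : Fin 22 → Option (Fin 4) :=
  ![some 0, some 1, some 2, some 3,
    none, none, none, none, none, none, none, none, none,
    some 1, some 1, some 2, some 2, some 2, some 3, some 3, some 3, some 3]

/-- Bit mask of a generator. -/
def code : Fin 22 → ℕ :=
  ![1, 1, 1, 1, 2, 4, 8, 16, 32, 64, 128, 256, 512, 3, 5, 9, 17, 33, 65, 129, 257, 513]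

/-- The component of a generator in the elementary abelian group of order `2 ^ 10`. -/
def lab (i : Fin 22) : Fin 10 → ZMod 2 := fun b => if Nat.testBit (code i) b then 1 else 0

/-- The special generators. -/
def sp (j : Fin 4) : Fin 22 := ⟨j, by omega⟩

/-- Combinatorial description of the triangles. -/
def Tri (i i' i'' : Fin 22) : Prop :=
  lab i' = lab i'' + lab i ∧
    ((ty i = none ∧ ty i' = ty i'') ∨ (ty i'' = none ∧ ty i' = ty i) ∨
      (ty i' = none ∧ ty i = ty i''))

instance (i i' i'' : Fin 22) : Decidable (Tri i i' i'') := by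
  unfold Tri
  infer_instance

/-- Triangle count. -/
def triCount (i : Fin 22) : ℕ := (Finset.univ.filter (fun i' => ∃ i'', Tri i i' i'')).card

lemma triCount_eq : ∀ i, triCount i =
    (![0, 4, 6, 8, 2, 2, 2, 2, 2, 2, 2, 2, 2, 2, 2, 2, 2, 2, 2, 2, 2, 2] : Fin 22 → ℕ) i := by
  decide +kernel

lemma triCount_unique : ∀ j i, triCount i = triCount (sp j) → i = sp j := by
  simp only [triCount_eq]
  decide +kernel

lemma lab_parity : ∀ i, lab i 0 = if ty i = none then 0 else 1 := by decide +kernel

lemma lab_ne_zero : ∀ i, lab i ≠ 0 := by decide +kernel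

lemma lab_inj : ∀ i i', lab i = lab i' → ty i = ty i' → i = i' := by decide +kernel

lemma ty_sp : ∀ j, ty (sp j) = some j := by decide +kernel

lemma lab_sp : ∀ j j', lab (sp j) + lab (sp j') = 0 := by decide +kernel

lemma lab_add_self : ∀ i, lab i + lab i = 0 := by decide +kernel

variable {P : Type} [Group P]

/-- The generators. -/
def gen (x : Fin 4 → P) (i : Fin 22) : P × Multiplicative (Fin 10 → ZMod 2) :=
  ((ty i).elim 1 x, Multiplicative.ofAdd (lab i))

lemma gen_sq (x : Fin 4 → P) (hx : ∀ j, x j * x j = 1) (i : Fin 22) : gen x i * gen x i = 1 := by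
  unfold gen
  ext
  · cases ty i <;> simp [hx]
  · simp only [Prod.snd_mul, ← ofAdd_add, lab_add_self]
    rfl

lemma gen_ne_one (x : Fin 4 → P) (i : Fin 22) : gen x i ≠ 1 := by
  intro h
  have := congrArg Prod.snd h
  exact lab_ne_zero i this

lemma gen_tri (x : Fin 4 → P) (hx : ∀ j, x j * x j = 1) (hinj : Function.Injective x)
    (i i' i'' : Fin 22) : gen x i' = gen x i'' * gen x i ↔ Tri i i' i'' := by
  unfold gen Tri
  rw [Prod.ext_iff]
  simp only [Prod.fst_mul, Prod.snd_mul, ← ofAdd_add, EmbeddingLike.apply_eq_iff_eq]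
  constructor
  · rintro ⟨h1, h2⟩
    refine ⟨h2, ?_⟩
    have h3 := congrFun h2 0
    simp only [Pi.add_apply, lab_parity] at h3
    revert h1 h3
    rcases ty i with _ | a <;> rcases ty i' with _ | b <;> rcases ty i'' with _ | c <;>
      simp only [Option.elim, reduceCtorEq, if_true, if_false, mul_one, one_mul] <;>
      intro h1 h3
    · simp
    · exact absurd h3 (by decide)
    · exact absurd h3 (by decide)
    · simp [hinj h1]
    · exact absurd h3 (by decide)
    · have : x c = x a := by
        rw [eq_inv_of_mul_eq_one_left h1.symm, inv_eq_of_mul_eq_one_right (hx a)]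
      simp [hinj this]
    · simp [hinj h1]
    · exact absurd h3 (by decide)
  · rintro ⟨h1, h2⟩
    refine ⟨?_, h1⟩
    rcases h2 with ⟨a, b⟩ | ⟨a, b⟩ | ⟨a, b⟩
    · rw [a, b]; simp
    · rw [a, b]; simp
    · rw [a, b]
      cases ty i'' <;> simp [hx]

lemma gen_injective (x : Fin 4 → P) (hinj : Function.Injective x) :
    Function.Injective (gen x) := by
  intro i i' h
  unfold gen at h
  rw [Prod.ext_iff] at h
  obtain ⟨h1, h2⟩ := h
  have h2' : lab i = lab i' := h2
  apply lab_inj i i' h2'
  have h3 := congrFun h2' 0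
  simp only [lab_parity] at h3
  revert h1 h3
  rcases ty i with _ | a <;> rcases ty i' with _ | b <;>
    simp only [Option.elim, reduceCtorEq, if_true, if_false] <;> intro h1 h3
  · trivial
  · exact absurd h3 (by decide)
  · exact absurd h3 (by decide)
  · rw [hinj h1]

lemma gen_sp_mul (x : Fin 4 → P) (j j' : Fin 4) :
    gen x (sp j) * gen x (sp j') = (x j * x j', 1) := by
  unfold gen
  ext
  · simp [ty_sp]
  · simp only [Prod.snd_mul, ← ofAdd_add, lab_sp]
    rfl

end Pool.Agent.Lib.MP_fed0c4_co
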