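import Pool.Agent.Lib.MP_fed0c4_co.Defs
import Mathlib

-- part Pool.Agent.Lib.MP_fed0c4_co.Local
section

/-!
Counting lemmas for balls, and the local rigidity argument for Cayley graphs whose special
generators are recognised by the number of triangles on an edge.
-/

namespace Pool.Agent.Lib.MP_fed0c4_co

open SimpleGraph

lemma self_mem_ballSet {V : Type} (H : SimpleGraph V) (v : V) (r : ℕ) : v ∈ ballSet H v r := by
  simp [ballSet]

lemma ballSet_mono {V : Type} (H : SimpleGraph V) (v : V) {k r : ℕ} (h : k ≤ r) :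
    ballSet H v k ⊆ ballSet H v r := by
  intro u hu
  simp only [ballSet, Set.mem_ofPred_eq] at hu ⊢
  exact hu.trans (by exact_mod_cast h)

lemma adj_mem_ballSet {V : Type} {H : SimpleGraph V} {v u w : V} {k : ℕ}
    (hu : u ∈ ballSet H v k) (h : H.Adj u w) : w ∈ ballSet H v (k + 1) := by
  simp only [ballSet, Set.mem_ofPred_eq] at hu ⊢
  have h1 : H.edist u w = 1 := edist_eq_one_iff_adj.mpr h
  calc H.edist v w ≤ H.edist v u + H.edist u w := SimpleGraph.edist_triangle
    _ ≤ (k : ℕ∞) + 1 := by rw [h1]; gcongr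
    _ = ((k + 1 : ℕ) : ℕ∞) := by push_cast; rfl

lemma ballSet_succ_subset {V : Type} (H : SimpleGraph V) (v : V) (k : ℕ) :
    ballSet H v (k + 1) ⊆ ⋃ u ∈ ballSet H v k, insert u (H.neighborSet u) := by
  intro w hw
  simp only [ballSet, Set.mem_ofPred_eq] at hw
  have hne : H.edist v w ≠ ⊤ := ne_top_of_le_ne_top (by simp) hw
  obtain ⟨p, hp⟩ := exists_walk_of_edist_ne_top hne
  simp only [Set.mem_iUnion, Set.mem_insert_iff, mem_neighborSet]
  have hp' : (p.reverse.length : ℕ∞) = H.edist v w := by simpa using hp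
  generalize p.reverse = q at hp'
  cases q with
  | nil => exact ⟨v, self_mem_ballSet H v k, Or.inl rfl⟩
  | cons hadj q =>
    rename_i x
    refine ⟨x, ?_, Or.inr hadj.symm⟩
    simp only [ballSet, Set.mem_ofPred_eq]
    have h2 : H.edist x v ≤ q.length := edist_le q
    rw [edist_comm] at h2
    refine h2.trans ?_
    rw [← hp'] at hw
    simp only [Walk.length_cons] at hw
    have : q.length + 1 ≤ k + 1 := by exact_mod_cast hw
    exact_mod_cast (by omega : q.length ≤ k)

lemma ballSet_card {V : Type} (H : SimpleGraph V) (d : ℕ)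
    (hfin : ∀ u, (H.neighborSet u).Finite) (hd : ∀ u, (H.neighborSet u).ncard ≤ d) (v : V)
    (k : ℕ) : (ballSet H v k).Finite ∧ (ballSet H v k).ncard ≤ (d + 1) ^ k := by
  classical
  induction k with
  | zero =>
    have : ballSet H v 0 = {v} := by
      ext u
      simp only [ballSet, Set.mem_ofPred_eq, Nat.cast_zero, nonpos_iff_eq_zero, edist_eq_zero_iff,
        Set.mem_singleton_iff]
      exact eq_comm
    rw [this]
    simp
  | succ k ih =>
    obtain ⟨hf, hc⟩ := ih
    have hsub := ballSet_succ_subset H v k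
    let T : Finset V := hf.toFinset.biUnion (fun u => insert u (hfin u).toFinset)
    have hT : ballSet H v (k + 1) ⊆ (T : Set V) := by
      intro w hw
      have := hsub hw
      simp only [Set.mem_iUnion, Set.mem_insert_iff, mem_neighborSet] at this
      obtain ⟨u, hu, huw⟩ := this
      simp only [T, Finset.coe_biUnion, Set.Finite.coe_toFinset, Finset.coe_insert,
        Set.mem_iUnion, Set.mem_insert_iff, mem_neighborSet]
      exact ⟨u, hu, huw⟩
    have hTc : T.card ≤ hf.toFinset.card * (d + 1) := by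
      apply Finset.card_biUnion_le_card_mul
      intro u _
      refine (Finset.card_insert_le _ _).trans ?_
      have := hd u
      rw [Set.ncard_eq_toFinset_card _ (hfin u)] at this
      omega
    refine ⟨T.finite_toSet.subset hT, ?_⟩
    calc (ballSet H v (k + 1)).ncard ≤ (T : Set V).ncard :=
          Set.ncard_le_ncard hT T.finite_toSet
      _ = T.card := Set.ncard_coe_finset T
      _ ≤ hf.toFinset.card * (d + 1) := hTc
      _ ≤ (d + 1) ^ k * (d + 1) := by
          rw [← Set.ncard_eq_toFinset_card _ hf]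
          gcongr
      _ = (d + 1) ^ (k + 1) := by ring

/-- In a graph whose `r`-balls (`r ≥ 1`) are all isomorphic to a finite rooted graph, every
vertex has the degree of the root. -/
lemma degree_of_ballIso {V W : Type} [Finite W] {H : SimpleGraph V} {v : V} {r : ℕ}
    {B : SimpleGraph W} {o : W} (hr : 1 ≤ r) (h : BallIso H v r B o) :
    (H.neighborSet v).Finite ∧ (H.neighborSet v).ncard = (B.neighborSet o).ncard := by
  obtain ⟨φ, hv, hφ⟩ := h
  have key : H.neighborSet v = (fun y : W => ((φ.symm y : ballSet H v r) : V)) ''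
      (B.neighborSet o) := by
    ext w
    simp only [mem_neighborSet, Set.mem_image]
    constructor
    · intro hw
      have hw' : w ∈ ballSet H v r :=
        ballSet_mono H v hr (adj_mem_ballSet (self_mem_ballSet H v 0) hw)
      refine ⟨φ ⟨w, hw'⟩, ?_, by simp⟩
      rw [← hφ]
      exact φ.map_adj_iff.mpr hw
    · rintro ⟨y, hy, rfl⟩
      have : (H.induce (ballSet H v r)).Adj (φ.symm o) (φ.symm y) := φ.symm.map_adj_iff.mpr hy
      rw [← hφ] at this
      simpa using this
  have hinj : Function.Injective (fun y : W => ((φ.symm y : ballSet H v r) : V)) :=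
    Subtype.val_injective.comp φ.symm.injective
  rw [key]
  exact ⟨(Set.toFinite _).image _, Set.ncard_image_of_injective _ hinj⟩

/-- Number of common neighbours. -/
noncomputable def cn {V : Type} (H : SimpleGraph V) (u w : V) : ℕ :=
  {y | H.Adj u y ∧ H.Adj w y}.ncard

lemma cn_transfer {V W : Type} {H : SimpleGraph V} {X : SimpleGraph W} {v : V} {o : W} {r k : ℕ}
    (φ : H.induce (ballSet H v r) ≃g X.induce (ballSet X o r)) (hk : k + 1 ≤ r)
    (u w : ballSet H v r) (hu : (u : V) ∈ ballSet H v k)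
    (hu' : ((φ u : ballSet X o r) : W) ∈ ballSet X o k) :
    cn H u w = cn X (φ u) (φ w) := by
  unfold cn
  have e1 : {y | H.Adj u y ∧ H.Adj w y} =
      Subtype.val '' {y : ballSet H v r | H.Adj u y ∧ H.Adj w y} := by
    ext y
    simp only [Set.mem_ofPred_eq, Set.mem_image]
    constructor
    · rintro ⟨h1, h2⟩
      exact ⟨⟨y, ballSet_mono H v hk (adj_mem_ballSet hu h1)⟩, ⟨h1, h2⟩, rfl⟩
    · rintro ⟨y', h, rfl⟩
      exact h
  have e2 : {y | X.Adj (φ u) y ∧ X.Adj (φ w) y} =
      (fun y : ballSet H v r => ((φ y : ballSet X o r) : W)) ''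
        {y : ballSet H v r | H.Adj u y ∧ H.Adj w y} := by
    ext y
    simp only [Set.mem_ofPred_eq, Set.mem_image]
    constructor
    · rintro ⟨h1, h2⟩
      have hy : y ∈ ballSet X o r := ballSet_mono X o hk (adj_mem_ballSet hu' h1)
      refine ⟨φ.symm ⟨y, hy⟩, ⟨?_, ?_⟩, by simp⟩
      · have : (X.induce (ballSet X o r)).Adj (φ u) (φ (φ.symm ⟨y, hy⟩)) := by simpa using h1
        exact φ.map_adj_iff.mp this
      · have : (X.induce (ballSet X o r)).Adj (φ w) (φ (φ.symm ⟨y, hy⟩)) := by simpa using h2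
        exact φ.map_adj_iff.mp this
    · rintro ⟨y', ⟨h1, h2⟩, rfl⟩
      constructor
      · have : (H.induce (ballSet H v r)).Adj u y' := h1
        exact φ.map_adj_iff.mpr this
      · have : (H.induce (ballSet H v r)).Adj w y' := h2
        exact φ.map_adj_iff.mpr this
  rw [e1, e2, Set.ncard_image_of_injective _ Subtype.val_injective]
  exact (Set.ncard_image_of_injective _ (Subtype.val_injective.comp φ.injective)).symm

/-- The Cayley graph of a family of involutions. -/
def cay {G I : Type} [Group G] (s : I → G) (h2 : ∀ i, s i * s i = 1) (h1 : ∀ i, s i ≠ 1) :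
    SimpleGraph G where
  Adj g h := ∃ i, h = s i * g
  symm := by
    constructor
    rintro g h ⟨i, rfl⟩
    exact ⟨i, by rw [← mul_assoc, h2, one_mul]⟩
  loopless := by
    constructor
    rintro g ⟨i, hi⟩
    exact h1 i (by simpa using hi.symm)

/-- Number of triangles on an edge labelled `i`. -/
noncomputable def tri {G I : Type} [Group G] (s : I → G) (i : I) : ℕ :=
  {i' | ∃ i'', s i' = s i'' * s i}.ncard

lemma cn_cay {G I : Type} [Group G] (s : I → G) (h2 : ∀ i, s i * s i = 1) (h1 : ∀ i, s i ≠ 1)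
    (hinj : Function.Injective s) (g : G) (i : I) :
    cn (cay s h2 h1) g (s i * g) = tri s i := by
  unfold cn tri
  have : {y | (cay s h2 h1).Adj g y ∧ (cay s h2 h1).Adj (s i * g) y} =
      (fun i' => s i' * g) '' {i' | ∃ i'', s i' = s i'' * s i} := by
    ext y
    simp only [cay, Set.mem_ofPred_eq, Set.mem_image]
    constructor
    · rintro ⟨⟨i', rfl⟩, ⟨i'', h⟩⟩
      refine ⟨i', ⟨i'', ?_⟩, rfl⟩
      rw [← mul_assoc] at h
      exact mul_right_cancel h
    · rintro ⟨i', ⟨i'', h⟩, rfl⟩
      exact ⟨⟨i', rfl⟩, ⟨i'', by rw [h, mul_assoc]⟩⟩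
  rw [this]
  exact Set.ncard_image_of_injective _ (fun a b hab => hinj (mul_right_cancel hab))

/-- Local rigidity: a graph with the same `r`-balls as the Cayley graph carries maps `σ j` such
that short words in the `σ j` fix a vertex exactly when they are trivial in the group. -/
theorem exists_labels {G I J V : Type} [Group G] (s : I → G) (h2 : ∀ i, s i * s i = 1)
    (h1 : ∀ i, s i ≠ 1) (hinj : Function.Injective s) (sp : J → I)
    (hsp : ∀ j i, tri s i = tri s (sp j) → i = sp j) (r : ℕ) (hr : 1 ≤ r) (H : SimpleGraph V)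
    (hH : ∀ v, BallIso H v r ((cay s h2 h1).induce (ballSet (cay s h2 h1) 1 r))
      ⟨1, self_mem_ballSet _ _ _⟩) :
    ∃ σ : J → V → V, ∀ (v : V) (L : List J), L.length ≤ r →
      (L.foldr σ v = v ↔ (L.map (fun j => s (sp j))).prod = 1) := by
  set X := cay s h2 h1 with hX
  choose φ hv hφ using hH
  have hs : ∀ i, s i ∈ ballSet X 1 r := fun i =>
    ballSet_mono X 1 hr (adj_mem_ballSet (self_mem_ballSet X 1 0) ⟨i, by simp⟩)
  let σ : J → V → V := fun j u => ((φ u).symm ⟨s (sp j), hs _⟩ : ballSet H u r)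
  have hσadj : ∀ j u, H.Adj u (σ j u) := by
    intro j u
    have : (X.induce (ballSet X 1 r)).Adj (φ u ⟨u, hv u⟩)
        (φ u ((φ u).symm ⟨s (sp j), hs _⟩)) := by
      rw [hφ]
      simp only [RelIso.apply_symm_apply]
      exact ⟨sp j, by simp⟩
    exact (φ u).map_adj_iff.mp this
  have hσcn : ∀ j u, cn H u (σ j u) = tri s (sp j) := by
    intro j u
    have := cn_transfer (k := 0) (φ u) (by omega) ⟨u, hv u⟩ ((φ u).symm ⟨s (sp j), hs _⟩)
      (self_mem_ballSet H u 0) (by rw [hφ]; exact self_mem_ballSet X 1 0)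
    rw [hφ] at this
    simp only [RelIso.apply_symm_apply] at this
    rw [← cn_cay s h2 h1 hinj 1 (sp j), mul_one]
    exact this
  refine ⟨σ, fun v => ?_⟩
  have main : ∀ L : List J, L.length ≤ r →
      L.foldr σ v ∈ ballSet H v L.length ∧
      (L.map (fun j => s (sp j))).prod ∈ ballSet X 1 L.length ∧
      ∀ h : L.foldr σ v ∈ ballSet H v r,
        ((φ v ⟨L.foldr σ v, h⟩ : ballSet X 1 r) : G) = (L.map (fun j => s (sp j))).prod := by
    intro L
    induction L with
    | nil =>
      intro _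
      refine ⟨self_mem_ballSet H v 0, self_mem_ballSet X 1 0, fun h => ?_⟩
      simp only [List.foldr_nil, List.map_nil, List.prod_nil]
      rw [hφ]
    | cons j L ih =>
      intro hL
      simp only [List.length_cons] at hL
      obtain ⟨a1, a2, a3⟩ := ih (by omega)
      simp only [List.foldr_cons, List.map_cons, List.prod_cons, List.length_cons]
      refine ⟨adj_mem_ballSet a1 (hσadj _ _), adj_mem_ballSet a2 ⟨sp j, rfl⟩, fun h => ?_⟩
      have hu : L.foldr σ v ∈ ballSet H v r := ballSet_mono H v (by omega) a1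
      have hadj : (H.induce (ballSet H v r)).Adj ⟨L.foldr σ v, hu⟩ ⟨σ j (L.foldr σ v), h⟩ :=
        hσadj _ _
      have hadj' := (φ v).map_adj_iff.mpr hadj
      obtain ⟨i, hi⟩ : X.Adj (φ v ⟨L.foldr σ v, hu⟩) (φ v ⟨σ j (L.foldr σ v), h⟩) := hadj'
      have hc := cn_transfer (k := L.length) (φ v) hL ⟨L.foldr σ v, hu⟩
        ⟨σ j (L.foldr σ v), h⟩ a1 (by rw [a3 hu]; exact a2)
      rw [hi, cn_cay s h2 h1 hinj] at hc
      have hc2 : tri s i = tri s (sp j) := by rw [← hc]; exact hσcn j _
      rw [hi, hsp j i hc2, a3 hu]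
  intro L hL
  obtain ⟨a1, _, a3⟩ := main L hL
  have hu : L.foldr σ v ∈ ballSet H v r := ballSet_mono H v hL a1
  rw [← a3 hu]
  constructor
  · intro h
    have : (⟨L.foldr σ v, hu⟩ : ballSet H v r) = ⟨v, hv v⟩ := Subtype.ext h
    rw [this, hφ]
  · intro h
    have h' : φ v ⟨L.foldr σ v, hu⟩ = φ v ⟨v, hv v⟩ := by
      rw [hφ]
      exact Subtype.ext h
    exact congrArg Subtype.val ((φ v).injective h')

end Pool.Agent.Lib.MP_fed0c4_co
end

-- part Pool.Agent.Lib.MP_fed0c4_co.Free
section

/-!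
The group-theoretic core: short relations force a large abelian 2-group to act freely.
-/

namespace Pool.Agent.Lib.MP_fed0c4_co

section Group

variable {K : Type} [Group K]

/-- The lamp at position `i`. -/
def lamp (A T : K) (i : ℕ) : K := T ^ i * A * (T ^ i)⁻¹

/-- The product of the lamps at positions below `l`, with exponents `c`. -/
def lampProd (A T : K) (c : ℕ → ℤ) : ℕ → K
  | 0 => 1
  | l + 1 => lampProd A T c l * (lamp A T l) ^ (c l)

lemma lamp_zpow (A T : K) (i : ℕ) (e : ℤ) : (lamp A T i) ^ e = T ^ i * A ^ e * (T ^ i)⁻¹ := by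
  unfold lamp
  exact conj_zpow

lemma commute_lamp {A T : K} {n : ℕ} (h : ∀ i < n, Commute A (lamp A T i)) {i j : ℕ}
    (hi : i < n) (hj : j < n) : Commute (lamp A T i) (lamp A T j) := by
  wlog hij : i ≤ j generalizing i j
  · exact (this hj hi (by omega)).symm
  obtain ⟨l, rfl⟩ := Nat.exists_eq_add_of_le hij
  have h1 := h l (by omega)
  have e : lamp A T (i + l) = T ^ i * lamp A T l * (T ^ i)⁻¹ := by
    unfold lamp
    rw [pow_add]
    group
  rw [e]
  unfold lamp at *
  exact h1.conj (T ^ i)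

lemma commute_lampProd {A T : K} {n : ℕ} (h : ∀ i < n, Commute A (lamp A T i)) (c : ℕ → ℤ)
    {j : ℕ} (hj : j < n) : ∀ l ≤ n, Commute (lampProd A T c l) (lamp A T j) := by
  intro l
  induction l with
  | zero => intro _; exact Commute.one_left _
  | succ l ih =>
    intro hl
    exact (ih (by omega)).mul_left ((commute_lamp h (by omega) hj).zpow_left _)

lemma lampProd_add {A T : K} {n : ℕ} (h : ∀ i < n, Commute A (lamp A T i)) (c c' : ℕ → ℤ) :
    ∀ l ≤ n, lampProd A T (fun i => c i + c' i) l = lampProd A T c l * lampProd A T c' l := by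
  intro l
  induction l with
  | zero => intro _; simp [lampProd]
  | succ l ih =>
    intro hl
    simp only [lampProd]
    rw [ih (by omega), zpow_add]
    have := ((commute_lampProd h c' (j := l) (by omega) l (by omega)).zpow_right (c l)).eq
    calc lampProd A T c l * lampProd A T c' l * (lamp A T l ^ c l * lamp A T l ^ c' l)
        = lampProd A T c l * (lampProd A T c' l * lamp A T l ^ c l) * lamp A T l ^ c' l := by
          simp only [mul_assoc]
      _ = _ := by rw [this]; simp only [mul_assoc]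

lemma lampProd_congr {A T : K} {c c' : ℕ → ℤ} :
    ∀ l, (∀ i < l, A ^ c i = A ^ c' i) → lampProd A T c l = lampProd A T c' l := by
  intro l
  induction l with
  | zero => intro _; rfl
  | succ l ih =>
    intro h
    simp only [lampProd]
    rw [ih (fun i hi => h i (by omega)), lamp_zpow, lamp_zpow, h l (by omega)]

lemma lampProd_zero (A T : K) : ∀ l, lampProd A T (fun _ => 0) l = 1 := by
  intro l
  induction l with
  | zero => rfl
  | succ l ih => simp [lampProd, ih]

lemma lampProd_mul {A T : K} {n : ℕ} (h : ∀ i < n, Commute A (lamp A T i)) (c : ℕ → ℤ) (N : ℕ) :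
    lampProd A T (fun i => N * c i) n = (lampProd A T c n) ^ N := by
  induction N with
  | zero => simpa using lampProd_zero A T n
  | succ N ih =>
    rw [pow_succ, ← ih, ← lampProd_add h _ _ n le_rfl]
    congr 1
    ext i
    push_cast
    ring

/-- The exponent vector with entries `0` or `2 ^ k`. -/
def epsVec (k : ℕ) (ε : ℕ → Bool) : ℕ → ℤ := fun i => if ε i then 2 ^ k else 0

lemma dvd_of_fixed {V : Type} {A T : Equiv.Perm V} {n k : ℕ}
    (h : ∀ i < n, Commute A (lamp A T i)) (hord : A ^ (2 ^ (k + 1)) = 1)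
    (hfree : ∀ ε : ℕ → Bool, (∃ i < n, ε i = true) → ∀ v, lampProd A T (epsVec k ε) n v ≠ v)
    (c : ℕ → ℤ) (v : V) (hv : lampProd A T c n v = v) : ∀ i < n, (2 : ℤ) ^ (k + 1) ∣ c i := by
  have main : ∀ j ≤ k + 1, ∀ i < n, (2 : ℤ) ^ j ∣ c i := by
    intro j
    induction j with
    | zero => intro _ i _; simp
    | succ j ih =>
      intro hj
      have ih' := ih (by omega)
      by_contra hcon
      push Not at hcon
      obtain ⟨i0, hi0, hnd⟩ := hcon
      let ε : ℕ → Bool := fun i => decide (Odd (c i / 2 ^ j))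
      have hε : ε i0 = true := by
        simp only [ε, decide_eq_true_eq]
        by_contra hodd
        rw [Int.not_odd_iff_even] at hodd
        obtain ⟨q, hq⟩ := hodd
        apply hnd
        have := Int.mul_ediv_cancel' (ih' i0 hi0)
        rw [← this, hq]
        exact ⟨q, by ring⟩
      apply hfree ε ⟨i0, hi0, hε⟩ v
      have h1 : lampProd A T (fun i => ((2 ^ (k - j) : ℕ) : ℤ) * c i) n v = v := by
        rw [lampProd_mul h]
        exact Equiv.Perm.pow_apply_eq_self_of_apply_eq_self hv _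
      rw [← h1]
      congr 1
      · apply lampProd_congr
        intro i hi
        have hc := Int.mul_ediv_cancel' (ih' i hi)
        have hk : ((2 ^ (k - j) : ℕ) : ℤ) * 2 ^ j = 2 ^ k := by
          push_cast
          rw [← pow_add]
          congr 1
          omega
        have hord' : A ^ ((2 : ℤ) ^ (k + 1)) = 1 := by
          rw [← zpow_natCast] at hord
          exact_mod_cast hord
        have e : ((2 ^ (k - j) : ℕ) : ℤ) * c i = 2 ^ k * (c i / 2 ^ j) := by
          rw [← hk, mul_assoc, hc]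
        rw [e]
        unfold epsVec
        by_cases ho : Odd (c i / 2 ^ j)
        · obtain ⟨q, hq⟩ := ho
          have : ε i = true := by simp only [ε, decide_eq_true_eq]; exact ⟨q, hq⟩
          rw [if_pos this, hq]
          have : (2 : ℤ) ^ k * (2 * q + 1) = 2 ^ (k + 1) * q + 2 ^ k := by ring
          rw [this, zpow_add, zpow_mul, hord']
          simp
        · have : ¬ ε i = true := by simpa only [ε, decide_eq_true_eq] using ho
          rw [if_neg this]
          rw [Int.not_odd_iff_even] at ho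
          obtain ⟨q, hq⟩ := ho
          have : (2 : ℤ) ^ k * (c i / 2 ^ j) = 2 ^ (k + 1) * q := by rw [hq]; ring
          rw [this, zpow_mul, hord']
          simp
  exact main (k + 1) le_rfl

lemma exists_injective_of_free {V : Type} {A T : Equiv.Perm V} {n k : ℕ}
    (h : ∀ i < n, Commute A (lamp A T i)) (hord : A ^ (2 ^ (k + 1)) = 1)
    (hfree : ∀ ε : ℕ → Bool, (∃ i < n, ε i = true) → ∀ v, lampProd A T (epsVec k ε) n v ≠ v)
    (v : V) : ∃ f : (Fin n → Fin (2 ^ (k + 1))) → V, Function.Injective f := by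
  let c : (Fin n → Fin (2 ^ (k + 1))) → ℕ → ℤ :=
    fun e i => if hi : i < n then ((e ⟨i, hi⟩ : ℕ) : ℤ) else 0
  refine ⟨fun e => lampProd A T (c e) n v, fun e e' hee => ?_⟩
  have h1 : lampProd A T (c e) n =
      lampProd A T (c e') n * lampProd A T (fun i => c e i - c e' i) n := by
    rw [← lampProd_add h _ _ n le_rfl]
    congr 1
    ext i
    ring
  simp only [h1, Equiv.Perm.mul_apply] at hee
  have h2 := dvd_of_fixed h hord hfree _ v ((lampProd A T (c e') n).injective hee)
  ext i
  have h3 := h2 i i.2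
  simp only [c, i.2, dif_pos, Fin.eta] at h3
  have a1 : ((e i : ℕ) : ℤ) < 2 ^ (k + 1) := by exact_mod_cast (e i).2
  have a2 : ((e' i : ℕ) : ℤ) < 2 ^ (k + 1) := by exact_mod_cast (e' i).2
  have h4 : ((e i : ℕ) : ℤ) - ((e' i : ℕ) : ℤ) = 0 := by
    apply Int.eq_zero_of_dvd_of_natAbs_lt_natAbs h3
    have : ((2 : ℤ) ^ (k + 1)).natAbs = 2 ^ (k + 1) := by simp [Int.natAbs_pow]
    rw [this]
    have a1' := (e i).2
    have a2' := (e' i).2
    omega
  omega

/-- Evaluation of a word. -/
def ev (y : Fin 4 → K) (L : List (Fin 4)) : K := (L.map y).prod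

/-- Power of a word. -/
def pw (L : List (Fin 4)) (n : ℕ) : List (Fin 4) := (List.replicate n L).flatten

lemma ev_append (y : Fin 4 → K) (L L' : List (Fin 4)) : ev y (L ++ L') = ev y L * ev y L' := by
  simp [ev]

lemma ev_pw (y : Fin 4 → K) (L : List (Fin 4)) (n : ℕ) : ev y (pw L n) = (ev y L) ^ n := by
  induction n with
  | zero => simp [ev, pw]
  | succ n ih =>
    have : pw L (n + 1) = L ++ pw L n := by simp [pw, List.replicate_succ]
    rw [this, ev_append, ih, pow_succ']

lemma length_pw (L : List (Fin 4)) (n : ℕ) : (pw L n).length = n * L.length := by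
  simp [pw]

lemma ev_pair (y : Fin 4 → K) (a b : Fin 4) : ev y [a, b] = y a * y b := by simp [ev]

lemma ev_pair_inv (y : Fin 4 → K) (h : ∀ j, y j * y j = 1) (a b : Fin 4) :
    ev y [a, b] = (y b * y a)⁻¹ := by
  rw [ev_pair, mul_inv_rev, inv_eq_of_mul_eq_one_right (h a), inv_eq_of_mul_eq_one_right (h b)]

/-- Word for the commutator of two lamps. -/
def wComm (i : ℕ) : List (Fin 4) :=
  [1, 0] ++ pw [2, 0] i ++ [1, 0] ++ pw [0, 2] i ++ [0, 1] ++ pw [2, 0] i ++ [0, 1] ++ pw [0, 2] i

lemma ev_wComm (y : Fin 4 → K) (h : ∀ j, y j * y j = 1) (i : ℕ) :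
    ev y (wComm i) = 1 ↔ Commute (y 1 * y 0) (lamp (y 1 * y 0) (y 2 * y 0) i) := by
  simp only [wComm, ev_append, ev_pw]
  rw [ev_pair y 1 0, ev_pair y 2 0, ev_pair_inv y h 0 2, ev_pair_inv y h 0 1,
    ← commutatorElement_eq_one_iff_commute, commutatorElement_def]
  unfold lamp
  generalize y 1 * y 0 = A
  generalize y 2 * y 0 = T
  have : A * T ^ i * A * T⁻¹ ^ i * A⁻¹ * T ^ i * A⁻¹ * T⁻¹ ^ i =
    A * (T ^ i * A * (T ^ i)⁻¹) * A⁻¹ * (T ^ i * A * (T ^ i)⁻¹)⁻¹ := by group
  rw [this]

lemma length_wComm (i : ℕ) : (wComm i).length = 8 * i + 8 := by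
  simp only [wComm, List.length_append, length_pw, List.length_cons, List.length_nil]
  ring

/-- Word for the relation between the lamp generator and the central involution. -/
def wRel (k : ℕ) : List (Fin 4) := pw [1, 0] (2 ^ k) ++ [0, 3]

lemma ev_wRel (y : Fin 4 → K) (h : ∀ j, y j * y j = 1) (k : ℕ) :
    ev y (wRel k) = 1 ↔ (y 1 * y 0) ^ (2 ^ k) = y 3 * y 0 := by
  simp only [wRel, ev_append, ev_pw]
  rw [ev_pair y 1 0, ev_pair_inv y h 0 3, mul_inv_eq_one]

lemma length_wRel (k : ℕ) : (wRel k).length = 2 * 2 ^ k + 2 := by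
  simp only [wRel, List.length_append, length_pw, List.length_cons, List.length_nil]
  ring

/-- Word that walks along the lamps and switches some of them. -/
def wWalk (ε : ℕ → Bool) : ℕ → List (Fin 4)
  | 0 => []
  | l + 1 => wWalk ε l ++ (if ε l then [3, 0] else []) ++ [2, 0]

lemma length_wWalk (ε : ℕ → Bool) : ∀ l, (wWalk ε l).length ≤ 4 * l := by
  intro l
  induction l with
  | zero => simp [wWalk]
  | succ l ih =>
    simp only [wWalk, List.length_append]
    split_ifs <;> simp <;> omega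

lemma ev_wWalk (y : Fin 4 → K) (k : ℕ) (hz : (y 1 * y 0) ^ (2 ^ k) = y 3 * y 0) (ε : ℕ → Bool) :
    ∀ l, ev y (wWalk ε l) =
      lampProd (y 1 * y 0) (y 2 * y 0) (epsVec k ε) l * (y 2 * y 0) ^ l := by
  intro l
  induction l with
  | zero => simp [wWalk, ev, lampProd]
  | succ l ih =>
    simp only [wWalk, ev_append, lampProd, ih, lamp_zpow, ev_pair]
    have e : ev y (if ε l then [3, 0] else []) = (y 1 * y 0) ^ (epsVec k ε l) := by
      unfold epsVec
      split_ifs
      · rw [ev_pair, ← hz, ← zpow_natCast]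
        norm_cast
      · simp [ev]
    rw [e]
    generalize y 1 * y 0 = A
    generalize y 2 * y 0 = T
    group

end Group

theorem exists_injective_of_labels {G V : Type} [Group G] (x : Fin 4 → G)
    (hx : ∀ j, x j * x j = 1) (n k r : ℕ) (hn : 8 * n ≤ r) (hk : 2 * 2 ^ k + 2 ≤ r)
    (hcomm : ∀ i < n, Commute (x 1 * x 0) (lamp (x 1 * x 0) (x 2 * x 0) i))
    (hz : (x 1 * x 0) ^ (2 ^ k) = x 3 * x 0) (hz2 : (x 3 * x 0) * (x 3 * x 0) = 1)
    (hfree : ∀ ε : ℕ → Bool, (∃ i < n, ε i = true) →
      lampProd (x 1 * x 0) (x 2 * x 0) (epsVec k ε) n ≠ 1)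
    (σ : Fin 4 → V → V)
    (hσ : ∀ (v : V) (L : List (Fin 4)), L.length ≤ r → (L.foldr σ v = v ↔ (L.map x).prod = 1))
    (v : V) : ∃ f : (Fin n → Fin (2 ^ (k + 1))) → V, Function.Injective f := by
  have h1 : 1 ≤ 2 ^ k := Nat.one_le_two_pow
  have hinv : ∀ j, Function.Involutive (σ j) := by
    intro j u
    have := (hσ u [j, j] (by simp; omega)).mpr (by simp [hx])
    simpa using this
  let ρ : Fin 4 → Equiv.Perm V := fun j => (hinv j).toPerm
  have hρ : ∀ j, ρ j * ρ j = 1 := by
    intro j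
    ext u
    simp [ρ, hinv j u]
  have hev : ∀ (L : List (Fin 4)) u, ev ρ L u = L.foldr σ u := by
    intro L u
    induction L with
    | nil => simp [ev]
    | cons j L ih =>
      have : ev ρ (j :: L) = ρ j * ev ρ L := by simp [ev]
      rw [this, Equiv.Perm.mul_apply, ih]
      simp [ρ]
  have htr : ∀ L : List (Fin 4), L.length ≤ r → ev x L = 1 → ev ρ L = 1 := by
    intro L hL h
    ext u
    rw [hev]
    exact (hσ u L hL).mpr h
  have hz' : (ρ 1 * ρ 0) ^ (2 ^ k) = ρ 3 * ρ 0 :=
    (ev_wRel ρ hρ k).mp (htr _ (by rw [length_wRel]; exact hk) ((ev_wRel x hx k).mpr hz))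
  have hz2' : (ρ 3 * ρ 0) * (ρ 3 * ρ 0) = 1 := by
    have := htr ([3, 0] ++ [3, 0]) (by simp; omega) (by rw [ev_append, ev_pair]; exact hz2)
    rwa [ev_append, ev_pair] at this
  apply exists_injective_of_free (A := ρ 1 * ρ 0) (T := ρ 2 * ρ 0) (k := k) _ _ _ v
  · intro i hi
    exact (ev_wComm ρ hρ i).mp
      (htr _ (by rw [length_wComm]; omega) ((ev_wComm x hx i).mpr (hcomm i hi)))
  · rw [pow_succ, pow_mul, hz', pow_two, hz2']
  · intro ε hε u hu
    apply hfree ε hε
    have hL : (wWalk ε n ++ pw [0, 2] n).length ≤ r := by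
      have := length_wWalk ε n
      simp only [List.length_append, length_pw, List.length_cons, List.length_nil]
      omega
    have e1 : ev ρ (wWalk ε n ++ pw [0, 2] n) =
        lampProd (ρ 1 * ρ 0) (ρ 2 * ρ 0) (epsVec k ε) n := by
      rw [ev_append, ev_pw, ev_wWalk ρ k hz', ev_pair_inv ρ hρ 0 2, inv_pow, mul_inv_cancel_right]
    have e2 : ev x (wWalk ε n ++ pw [0, 2] n) =
        lampProd (x 1 * x 0) (x 2 * x 0) (epsVec k ε) n := by
      rw [ev_append, ev_pw, ev_wWalk x k hz, ev_pair_inv x hx 0 2, inv_pow, mul_inv_cancel_right]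
    rw [← e2]
    apply (hσ u _ hL).mp
    rw [← hev, e1, hu]

end Pool.Agent.Lib.MP_fed0c4_co
end

-- part Pool.Agent.Lib.MP_fed0c4_co.Lamps
section

/-!
The finite lamplighter-type permutation group.
-/

namespace Pool.Agent.Lib.MP_fed0c4_co

section

variable {n m : ℕ}

/-- Shift the fibre over `p` by `f p`. -/
def shiftPerm (f : ZMod n → ZMod m) : Equiv.Perm (ZMod n × ZMod m) where
  toFun y := (y.1, y.2 + f y.1)
  invFun y := (y.1, y.2 - f y.1)
  left_inv y := by simp
  right_inv y := by simp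

/-- Translation of the base. -/
def movePerm : Equiv.Perm (ZMod n × ZMod m) where
  toFun y := (y.1 + 1, y.2)
  invFun y := (y.1 - 1, y.2)
  left_inv y := by simp
  right_inv y := by simp

/-- The point reflection. -/
def negPerm : Equiv.Perm (ZMod n × ZMod m) := Equiv.neg _

@[simp] lemma shiftPerm_apply (f : ZMod n → ZMod m) (y : ZMod n × ZMod m) :
    shiftPerm f y = (y.1, y.2 + f y.1) := rfl

@[simp] lemma movePerm_apply (y : ZMod n × ZMod m) : movePerm y = (y.1 + 1, y.2) := rfl

@[simp] lemma negPerm_apply (y : ZMod n × ZMod m) : negPerm y = (-y.1, -y.2) := rfl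

lemma shiftPerm_mul (f g : ZMod n → ZMod m) : shiftPerm f * shiftPerm g = shiftPerm (f + g) := by
  ext y
  · simp
  · simp; ring

lemma shiftPerm_zero : shiftPerm (0 : ZMod n → ZMod m) = 1 := by
  ext y <;> simp

lemma shiftPerm_pow (f : ZMod n → ZMod m) (N : ℕ) : shiftPerm f ^ N = shiftPerm (N • f) := by
  induction N with
  | zero => simp [shiftPerm_zero]
  | succ N ih => rw [pow_succ, ih, shiftPerm_mul, succ_nsmul]

lemma movePerm_pow_apply (i : ℕ) (y : ZMod n × ZMod m) :
    (movePerm ^ i : Equiv.Perm (ZMod n × ZMod m)) y = (y.1 + i, y.2) := by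
  induction i with
  | zero => simp
  | succ i ih => rw [pow_succ', Equiv.Perm.mul_apply, ih]; simp; ring

lemma conj_shiftPerm (f : ZMod n → ZMod m) (i : ℕ) :
    movePerm ^ i * shiftPerm f * (movePerm ^ i)⁻¹ = shiftPerm (fun p : ZMod n => f (p - (i : ZMod n))) := by
  rw [mul_inv_eq_iff_eq_mul]
  ext y <;> simp [movePerm_pow_apply]

/-- The function with value `c` at `0` and value `0` elsewhere. -/
def bump (c : ZMod m) : ZMod n → ZMod m := fun p => if p = 0 then c else 0

lemma bump_neg (c : ZMod m) (p : ZMod n) : bump c (-p) = bump c p := by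
  simp [bump]

/-- The four involutions. -/
def invol (n m : ℕ) (c : ZMod m) : Fin 4 → Equiv.Perm (ZMod n × ZMod m) :=
  ![negPerm, shiftPerm (bump 1) * negPerm, movePerm * negPerm, shiftPerm (bump c) * negPerm]

lemma negPerm_sq : (negPerm : Equiv.Perm (ZMod n × ZMod m)) * negPerm = 1 := by
  ext y <;> simp

lemma invol_sq (c : ZMod m) : ∀ j, invol n m c j * invol n m c j = 1 := by
  intro j
  fin_cases j
  · exact negPerm_sq
  · ext y <;> simp [invol, bump_neg]
  · ext y <;> simp [invol]
  · ext y <;> simp [invol, bump_neg]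

lemma invol_one_zero (c : ZMod m) : invol n m c 1 * invol n m c 0 = shiftPerm (bump 1) := by
  simp [invol, mul_assoc, negPerm_sq]

lemma invol_two_zero (c : ZMod m) : invol n m c 2 * invol n m c 0 = movePerm := by
  simp [invol, mul_assoc, negPerm_sq]

lemma invol_three_zero (c : ZMod m) : invol n m c 3 * invol n m c 0 = shiftPerm (bump c) := by
  simp [invol, mul_assoc, negPerm_sq]

lemma invol_injective (c : ZMod m) (hn : (1 : ZMod n) ≠ 0) (hm : (1 : ZMod m) ≠ 0) (hc0 : c ≠ 0)
    (hc1 : c ≠ 1) : Function.Injective (invol n m c) := by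
  intro j j' h
  have h0 := congrArg (fun g : Equiv.Perm (ZMod n × ZMod m) => g (0, 0)) h
  fin_cases j <;> fin_cases j' <;>
    simp [invol, bump, hn, hm, hc0, hc1, hn.symm, hm.symm, hc0.symm, hc1.symm] at h0 ⊢

lemma lamp_shift (i : ℕ) : lamp (shiftPerm (bump 1 : ZMod n → ZMod m)) movePerm i =
    shiftPerm (fun p : ZMod n => bump 1 (p - (i : ZMod n))) := conj_shiftPerm _ i

lemma lampProd_shift (k : ℕ) (ε : ℕ → Bool) : ∀ l,
    lampProd (shiftPerm (bump 1 : ZMod n → ZMod m)) movePerm (epsVec k ε) l =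
      shiftPerm (fun p => ∑ i ∈ Finset.range l,
        if ε i = true ∧ p = (i : ZMod n) then (2 : ZMod m) ^ k else 0) := by
  intro l
  induction l with
  | zero => simp only [lampProd, Finset.range_zero, Finset.sum_empty]; exact shiftPerm_zero.symm
  | succ l ih =>
    simp only [lampProd, ih, lamp_shift, Finset.sum_range_succ]
    unfold epsVec
    by_cases h : ε l = true
    · rw [if_pos h]
      have : ((2 : ℤ) ^ k) = ((2 ^ k : ℕ) : ℤ) := by norm_cast
      rw [this, zpow_natCast, shiftPerm_pow, shiftPerm_mul]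
      congr 1
      ext p
      simp [h, bump, sub_eq_zero]
    · rw [if_neg h]
      simp [h]

end

lemma two_pow_ne_zero_zmod (k : ℕ) : (2 : ZMod (2 ^ (k + 1))) ^ k ≠ 0 := by
  intro h
  have : ((2 ^ k : ℕ) : ZMod (2 ^ (k + 1))) = 0 := by exact_mod_cast h
  rw [ZMod.natCast_eq_zero_iff] at this
  have h2 := Nat.le_of_dvd (by positivity) this
  have : 2 ^ k < 2 ^ (k + 1) := Nat.pow_lt_pow_right (by norm_num) (by omega)
  omega

lemma lampProd_ne_one (n k : ℕ) (ε : ℕ → Bool) (hε : ∃ i < n, ε i = true) :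
    lampProd (shiftPerm (bump 1 : ZMod n → ZMod (2 ^ (k + 1)))) movePerm (epsVec k ε) n ≠ 1 := by
  obtain ⟨i0, hi0, hε⟩ := hε
  rw [lampProd_shift]
  intro h
  have h0 := congrArg (fun g : Equiv.Perm (ZMod n × ZMod (2 ^ (k + 1))) => (g (i0, 0)).2) h
  simp only [shiftPerm_apply, zero_add, Equiv.Perm.coe_one, id_eq] at h0
  rw [Finset.sum_eq_single i0] at h0
  · simp only [hε, and_self, if_true] at h0
    exact two_pow_ne_zero_zmod k h0
  · intro b hb hne
    rw [if_neg]
    rintro ⟨_, h2⟩
    rw [ZMod.natCast_eq_natCast_iff', Nat.mod_eq_of_lt hi0,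
      Nat.mod_eq_of_lt (Finset.mem_range.mp hb)] at h2
    exact hne h2.symm
  · intro hb
    exact absurd (Finset.mem_range.mpr hi0) hb

/-- The finite group with four involutions and all required relations. -/
theorem exists_lamp_group (k : ℕ) (hk : 1 ≤ k) :
    ∃ (P : Type) (_ : Group P) (_ : Finite P) (x : Fin 4 → P),
      (∀ j, x j * x j = 1) ∧ Function.Injective x ∧
      (∀ i, Commute (x 1 * x 0) (lamp (x 1 * x 0) (x 2 * x 0) i)) ∧
      (x 1 * x 0) ^ (2 ^ k) = x 3 * x 0 ∧ (x 3 * x 0) * (x 3 * x 0) = 1 ∧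
      ∀ ε : ℕ → Bool, (∃ i < 2 ^ k, ε i = true) →
        lampProd (x 1 * x 0) (x 2 * x 0) (epsVec k ε) (2 ^ k) ≠ 1 := by
  have h2k : 2 ≤ 2 ^ k := by
    calc 2 = 2 ^ 1 := by norm_num
      _ ≤ 2 ^ k := Nat.pow_le_pow_right (by norm_num) hk
  have hlt : 2 ^ k < 2 ^ (k + 1) := Nat.pow_lt_pow_right (by norm_num) (by omega)
  have : NeZero (2 ^ k) := ⟨by positivity⟩
  have : NeZero (2 ^ (k + 1)) := ⟨by positivity⟩
  have : Fact (1 < 2 ^ k) := ⟨by omega⟩
  have : Fact (1 < 2 ^ (k + 1)) := ⟨by omega⟩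
  refine ⟨Equiv.Perm (ZMod (2 ^ k) × ZMod (2 ^ (k + 1))), inferInstance, inferInstance,
    invol (2 ^ k) (2 ^ (k + 1)) (2 ^ k), invol_sq _, ?_, ?_, ?_, ?_, ?_⟩
  · apply invol_injective _ one_ne_zero one_ne_zero (two_pow_ne_zero_zmod k)
    intro h
    have : ((2 ^ k : ℕ) : ZMod (2 ^ (k + 1))) = ((1 : ℕ) : ZMod (2 ^ (k + 1))) := by
      exact_mod_cast h
    rw [ZMod.natCast_eq_natCast_iff', Nat.mod_eq_of_lt hlt, Nat.mod_eq_of_lt (by omega)] at this
    omega
  · intro i
    rw [invol_one_zero, invol_two_zero, lamp_shift]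
    unfold Commute SemiconjBy
    rw [shiftPerm_mul, shiftPerm_mul]
    exact congrArg shiftPerm (add_comm _ _)
  · rw [invol_one_zero, invol_three_zero, shiftPerm_pow]
    congr 1
    ext p
    simp [bump]
  · rw [invol_three_zero, shiftPerm_mul, ← shiftPerm_zero]
    congr 1
    ext p
    have : (2 : ZMod (2 ^ (k + 1))) ^ k + 2 ^ k = 0 := by
      have h := ZMod.natCast_self (2 ^ (k + 1))
      push_cast at h
      rw [← h]
      ring
    simp only [bump, Pi.add_apply, Pi.zero_apply]
    split_ifs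
    · exact this
    · simp
  · intro ε hε
    rw [invol_one_zero, invol_two_zero]
    exact lampProd_ne_one _ k ε hε

end Pool.Agent.Lib.MP_fed0c4_co
end
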