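import Pool.Agent.Lib.MP_fed0c4_co.Gadget
import Pool.Agent.Lib.MP_fed0c4_co.Lamps

/-!
Assembly: realizable balls of root degree 22 whose minimal diameter is at least of order
`r log r`.
-/

namespace Pool.Agent.Lib.MP_fed0c4_co

open SimpleGraph

lemma iso_edist_le {V W : Type} {H : SimpleGraph V} {X : SimpleGraph W} (ψ : H ≃g X) (u v : V) :
    X.edist (ψ u) (ψ v) ≤ H.edist u v := by
  by_cases h : H.edist u v = ⊤
  · rw [h]; exact le_top
  · obtain ⟨p, hp⟩ := exists_walk_of_edist_ne_top h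
    have := edist_le (p.map ψ.toHom)
    rw [Walk.length_map, hp] at this
    exact this

lemma ballIso_of_iso {V W : Type} {H : SimpleGraph V} {X : SimpleGraph W} (ψ : H ≃g X) (v : V)
    (o : W) (ho : ψ v = o) (r : ℕ) :
    BallIso H v r (X.induce (ballSet X o r)) ⟨o, self_mem_ballSet _ _ _⟩ := by
  subst ho
  have hb : Set.BijOn ψ (ballSet H v r) (ballSet X (ψ v) r) := by
    refine ⟨fun u hu => (iso_edist_le ψ v u).trans hu, ψ.injective.injOn, fun w hw => ?_⟩
    refine ⟨ψ.symm w, ?_, by simp⟩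
    have := iso_edist_le ψ.symm (ψ v) w
    simp only [RelIso.symm_apply_apply] at this
    exact this.trans hw
  exact ⟨ψ.induce hb, self_mem_ballSet _ _ _, rfl⟩

lemma BallIso.trans {V W W' : Type} {H : SimpleGraph V} {v : V} {r : ℕ} {B : SimpleGraph W}
    {o : W} {B' : SimpleGraph W'} {o' : W'} (h : BallIso H v r B o) (e : B ≃g B')
    (he : e o = o') : BallIso H v r B' o' := by
  obtain ⟨φ, hv, hφ⟩ := h
  exact ⟨φ.trans e, hv, by simp [hφ, he]⟩

/-- Right multiplication is an automorphism of the Cayley graph. -/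
def cayIso {G I : Type} [Group G] (s : I → G) (h2 : ∀ i, s i * s i = 1) (h1 : ∀ i, s i ≠ 1)
    (g : G) : cay s h2 h1 ≃g cay s h2 h1 where
  toEquiv := Equiv.mulRight g
  map_rel_iff' := by
    intro a b
    simp only [cay, Equiv.coe_mulRight]
    constructor
    · rintro ⟨i, h⟩
      rw [← mul_assoc] at h
      exact ⟨i, mul_right_cancel h⟩
    · rintro ⟨i, h⟩
      exact ⟨i, by rw [h, mul_assoc]⟩

lemma cay_connected {G I : Type} [Group G] (s : I → G) (h2 : ∀ i, s i * s i = 1)
    (h1 : ∀ i, s i ≠ 1) (hgen : Subgroup.closure (Set.range s) = ⊤) :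
    (cay s h2 h1).Connected := by
  have key : ∀ g : G, (cay s h2 h1).Reachable 1 g := by
    intro g
    have hg : g ∈ Subgroup.closure (Set.range s) := by rw [hgen]; trivial
    induction hg using Subgroup.closure_induction_left with
    | one => rfl
    | mul_left x hx y _ ih =>
      obtain ⟨i, rfl⟩ := hx
      exact ih.trans (Adj.reachable ⟨i, rfl⟩)
    | inv_mul_cancel x hx y _ ih =>
      obtain ⟨i, rfl⟩ := hx
      rw [inv_eq_of_mul_eq_one_right (h2 i)]
      exact ih.trans (Adj.reachable ⟨i, rfl⟩)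
  exact ⟨fun u v => (key u).symm.trans (key v)⟩

lemma map_lamp {K K' : Type} [Group K] [Group K'] (f : K →* K') (A T : K) (i : ℕ) :
    f (lamp A T i) = lamp (f A) (f T) i := by
  simp [lamp]

lemma map_lampProd {K K' : Type} [Group K] [Group K'] (f : K →* K') (A T : K) (c : ℕ → ℤ) :
    ∀ l, f (lampProd A T c l) = lampProd (f A) (f T) c l := by
  intro l
  induction l with
  | zero => simp [lampProd]
  | succ l ih => simp [lampProd, ih, map_lamp]

/-- A finite group generated by 22 involutions with all the properties used below. -/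
theorem exists_cayley (k : ℕ) (hk : 1 ≤ k) :
    ∃ (G : Type) (_ : Group G) (_ : Finite G) (s : Fin 22 → G),
      (∀ i, s i * s i = 1) ∧ (∀ i, s i ≠ 1) ∧ Function.Injective s ∧
      Subgroup.closure (Set.range s) = ⊤ ∧
      (∀ j i, tri s i = tri s (sp j) → i = sp j) ∧
      (∀ i, Commute (s (sp 1) * s (sp 0))
        (lamp (s (sp 1) * s (sp 0)) (s (sp 2) * s (sp 0)) i)) ∧
      (s (sp 1) * s (sp 0)) ^ (2 ^ k) = s (sp 3) * s (sp 0) ∧
      (s (sp 3) * s (sp 0)) * (s (sp 3) * s (sp 0)) = 1 ∧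
      ∀ ε : ℕ → Bool, (∃ i < 2 ^ k, ε i = true) →
        lampProd (s (sp 1) * s (sp 0)) (s (sp 2) * s (sp 0)) (epsVec k ε) (2 ^ k) ≠ 1 := by
  obtain ⟨P, _, _, x, hx, hinj, hcomm, hz, hz2, hfree⟩ := exists_lamp_group k hk
  let Γ := P × Multiplicative (Fin 10 → ZMod 2)
  let G := Subgroup.closure (Set.range (gen x))
  let s : Fin 22 → G := fun i => ⟨gen x i, Subgroup.subset_closure ⟨i, rfl⟩⟩
  have hpair : ∀ j j', G.subtype (s (sp j) * s (sp j')) =
      MonoidHom.inl P (Multiplicative (Fin 10 → ZMod 2)) (x j * x j') := by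
    intro j j'
    exact gen_sp_mul x j j'
  have hsub : Function.Injective G.subtype := G.subtype_injective
  have hinl : Function.Injective (MonoidHom.inl P (Multiplicative (Fin 10 → ZMod 2))) := by
    intro a b h
    exact congrArg Prod.fst h
  refine ⟨G, inferInstance, inferInstance, s, ?_, ?_, ?_, ?_, ?_, ?_, ?_, ?_, ?_⟩
  · intro i
    exact Subtype.ext (gen_sq x hx i)
  · intro i h
    exact gen_ne_one x i (congrArg Subtype.val h)
  · intro i i' h
    exact gen_injective x hinj (congrArg Subtype.val h)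
  · have : Set.range s = G.subtype ⁻¹' (Set.range (gen x)) := by
      ext g
      simp only [Set.mem_range, Set.mem_preimage]
      constructor
      · rintro ⟨i, rfl⟩
        exact ⟨i, rfl⟩
      · rintro ⟨i, h⟩
        exact ⟨i, Subtype.ext h⟩
    rw [this]
    exact Subgroup.closure_preimage_eq_top _
  · have htri : ∀ i, tri s i = triCount i := by
      intro i
      unfold tri triCount
      rw [← Set.ncard_coe_finset]
      congr 1
      ext i'
      simp only [Set.mem_ofPred_eq, Finset.coe_filter, Finset.mem_univ, true_and]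
      apply exists_congr
      intro i''
      rw [← gen_tri x hx hinj]
      exact Subtype.ext_iff
    intro j i h
    rw [htri, htri] at h
    exact triCount_unique j i h
  · intro i
    apply Commute.of_map hsub
    rw [map_lamp, hpair, hpair, ← map_lamp]
    exact (hcomm i).map _
  · apply hsub
    rw [map_pow, hpair, hpair, ← map_pow, hz]
  · apply hsub
    rw [map_mul, hpair, ← map_mul, hz2, map_one, map_one]
  · intro ε hε h
    apply hfree ε hε
    apply hinl
    have := congrArg G.subtype h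
    rw [map_lampProd, hpair, hpair, ← map_lampProd] at this
    rw [this, map_one, map_one]

/-- For `r ≥ 8 * 2 ^ k` there is a realizable `r`-ball of root degree 22 all of whose realizations
of diameter at most `D` satisfy `(2 ^ (k + 1)) ^ (2 ^ k) ≤ 23 ^ D`. -/
theorem exists_ball (k r : ℕ) (hk : 1 ≤ k) (hr : 8 * 2 ^ k ≤ r) :
    ∃ (N : ℕ) (B : SimpleGraph (Fin N)) (o : Fin N), Realizable B o r ∧
      (B.neighborSet o).ncard = 22 ∧
      ∀ (V : Type) (H : SimpleGraph V), AllBalls H r B o → ∀ D : ℕ, H.ediam ≤ D →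
        (2 ^ (k + 1)) ^ (2 ^ k) ≤ 23 ^ D := by
  classical
  obtain ⟨G, _, _, s, h2, h1, hinj, hgen, hsp, hcomm, hz, hz2, hfree⟩ := exists_cayley k hk
  have h2k : 1 ≤ 2 ^ k := Nat.one_le_two_pow
  have hr1 : 1 ≤ r := by omega
  set X := cay s h2 h1 with hX
  let B0 := X.induce (ballSet X 1 r)
  let o0 : ballSet X 1 r := ⟨1, self_mem_ballSet _ _ _⟩
  have : Fintype (ballSet X 1 r) := Fintype.ofFinite _
  let e := B0.overFinIso (n := Fintype.card (ballSet X 1 r)) rfl
  have hXall : ∀ g, BallIso X g r (B0.overFin rfl) (e o0) := fun g =>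
    (ballIso_of_iso (cayIso s h2 h1 g⁻¹) g 1 (by simp [cayIso]) r).trans e rfl
  have hdeg : ((B0.overFin rfl).neighborSet (e o0)).ncard = 22 := by
    rw [← (degree_of_ballIso hr1 (hXall 1)).2]
    have : X.neighborSet 1 = Set.range s := by
      ext g
      simp [hX, cay, eq_comm]
    rw [this, Set.ncard_range_of_injective hinj]
    simp
  refine ⟨_, B0.overFin rfl, e o0, ⟨G, inferInstance, X, cay_connected s h2 h1 hgen, hXall⟩,
    hdeg, ?_⟩
  intro V H hH D hD
  obtain ⟨hconn, hballs⟩ := hH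
  obtain ⟨v⟩ := hconn.nonempty
  have hballs0 : ∀ u, BallIso H u r B0 o0 := fun u => (hballs u).trans e.symm (by simp)
  obtain ⟨σ, hσ⟩ := exists_labels s h2 h1 hinj sp hsp r hr1 H hballs0
  obtain ⟨f, hf⟩ := exists_injective_of_labels (fun j => s (sp j)) (fun j => h2 _) (2 ^ k) k r hr
    (by omega) (fun i _ => hcomm i) hz hz2 hfree σ hσ v
  have hcard := ballSet_card H 22 (fun u => (degree_of_ballIso hr1 (hballs u)).1)
    (fun u => by rw [(degree_of_ballIso hr1 (hballs u)).2, hdeg]) v D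
  have huniv : ballSet H v D = Set.univ := by
    ext u
    simp only [ballSet, Set.mem_ofPred_eq, Set.mem_univ, iff_true]
    exact edist_le_ediam.trans hD
  rw [huniv] at hcard
  have : Finite V := Set.finite_univ_iff.mp hcard.1
  have h3 := Nat.card_le_card_of_injective f hf
  rw [← Set.ncard_univ V] at h3
  simp only [Nat.card_eq_fintype_card, Fintype.card_pi, Fintype.card_fin, Finset.prod_const,
    Finset.card_univ] at h3
  exact h3.trans hcard.2

lemma minDiam_ne_top {W : Type} {B : SimpleGraph W} {o : W} {r : ℕ} (h : Realizable B o r) :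
    minDiam B o r ≠ ⊤ := by
  obtain ⟨V, _, H, hH⟩ := h
  have : Nonempty V := hH.1.nonempty
  have h1 : H.ediam ≠ ⊤ := connected_iff_ediam_ne_top.mp hH.1
  refine ne_top_of_le_ne_top h1 ?_
  exact (iInf_le _ V).trans ((iInf_le _ H).trans (iInf_le _ hH))

lemma card_le_of_realizable {N : ℕ} {B : SimpleGraph (Fin N)} {o : Fin N} {r d : ℕ} (hr : 1 ≤ r)
    (h : Realizable B o r) (hd : (B.neighborSet o).ncard = d) : N ≤ (d + 1) ^ r := by
  obtain ⟨V, _, H, hconn, hballs⟩ := h
  obtain ⟨v⟩ := hconn.nonempty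
  have hcard := ballSet_card H d (fun u => (degree_of_ballIso hr (hballs u)).1)
    (fun u => by rw [(degree_of_ballIso hr (hballs u)).2, hd]) v r
  obtain ⟨φ, _, _⟩ := hballs v
  have := Nat.card_congr φ.toEquiv
  rw [Nat.card_coe_set_eq] at this
  simp only [Nat.card_eq_fintype_card, Fintype.card_fin] at this
  rw [← this]
  exact hcard.2

lemma maxMinDiam_ne_top (d r : ℕ) (hr : 1 ≤ r) : maxMinDiam d r ≠ ⊤ := by
  let S := Σ N : Fin ((d + 1) ^ r + 1), SimpleGraph (Fin N) × Fin N
  let g : S → ℕ := fun a => (minDiam a.2.1 a.2.2 r).toNat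
  obtain ⟨K, hK⟩ := (Set.finite_range g).bddAbove
  refine ne_top_of_le_ne_top (ENat.natCast_ne_top K) ?_
  unfold maxMinDiam
  refine iSup_le fun N => iSup_le fun B => iSup_le fun o => iSup_le fun h => iSup_le fun hd => ?_
  have hN := card_le_of_realizable hr h hd
  have := hK ⟨⟨⟨N, by omega⟩, (B, o)⟩, rfl⟩
  simp only [g] at this
  rw [← ENat.natCast_toNat (minDiam_ne_top h)]
  exact_mod_cast this

theorem maxMinDiam_lower (k r : ℕ) (hk : 1 ≤ k) (hr : 8 * 2 ^ k ≤ r) :
    (k + 1) * 2 ^ k ≤ 5 * (maxMinDiam 22 r).toNat := by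
  have h2k : 1 ≤ 2 ^ k := Nat.one_le_two_pow
  obtain ⟨N, B, o, hreal, hdeg, hB⟩ := exists_ball k r hk hr
  set D := (maxMinDiam 22 r).toNat with hD
  have hM : maxMinDiam 22 r = D := (ENat.natCast_toNat (maxMinDiam_ne_top 22 r (by omega))).symm
  have h1 : minDiam B o r ≤ D := by
    rw [← hM]
    unfold maxMinDiam
    exact le_iSup_of_le N (le_iSup_of_le B (le_iSup_of_le o (le_iSup_of_le hreal
      (le_iSup_of_le hdeg le_rfl))))
  have h2 : minDiam B o r < (D + 1 : ℕ) := h1.trans_lt (by exact_mod_cast Nat.lt_succ_self D)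
  unfold minDiam at h2
  simp only [iInf_lt_iff] at h2
  obtain ⟨V, H, hH, hlt⟩ := h2
  have h3 := hB V H hH D (by
    push_cast at hlt
    exact Order.le_of_lt_add_one hlt)
  have h4 : (23 : ℕ) ^ D ≤ 2 ^ (5 * D) := by
    rw [pow_mul]
    exact Nat.pow_le_pow_left (by norm_num) D
  rw [← pow_mul] at h3
  exact (Nat.pow_le_pow_iff_right (by norm_num)).mp (h3.trans h4)

theorem tendsto_maxMinDiam :
    Filter.Tendsto (fun r : ℕ => ((maxMinDiam 22 r).toNat : ℝ) / r) Filter.atTop
      Filter.atTop := by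
  rw [Filter.tendsto_atTop_atTop]
  intro b
  obtain ⟨C, hC⟩ := exists_nat_ge b
  refine ⟨8 * 2 ^ (80 * C + 1), fun r hr => ?_⟩
  have h0 : 1 ≤ 2 ^ (80 * C + 1) := Nat.one_le_two_pow
  set k := Nat.log 2 (r / 8) with hk
  have hr8 : 2 ^ (80 * C + 1) ≤ r / 8 := by omega
  have hk1 : 80 * C + 1 ≤ k := Nat.le_log_of_pow_le (by norm_num) hr8
  have hk2 : 2 ^ k ≤ r / 8 := Nat.pow_log_le_self 2 (by omega)
  have hk3 : r / 8 < 2 ^ (k + 1) := Nat.lt_pow_succ_log_self (by norm_num) _
  have hmain := maxMinDiam_lower k r (by omega) (by omega)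
  have hr0 : (0 : ℝ) < r := by exact_mod_cast (by omega : 0 < r)
  rw [le_div_iff₀ hr0]
  have h5 : C * r ≤ (maxMinDiam 22 r).toNat := by
    have a1 : r ≤ 16 * 2 ^ k := by rw [pow_succ] at hk3; omega
    have a2 : 80 * C * 2 ^ k ≤ (k + 1) * 2 ^ k := Nat.mul_le_mul_right _ (by omega)
    have a3 : C * r ≤ C * (16 * 2 ^ k) := Nat.mul_le_mul_left _ a1
    nlinarith
  calc b * r ≤ C * r := by gcongr
    _ ≤ _ := by exact_mod_cast h5

end Pool.Agent.Lib.MP_fed0c4_co
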